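import Pool.Agent.H82.NTC.Stmts

/-!
# Board ntb, row XDB
-/

set_option autoImplicit false

namespace Pool.NTC

open Pool.NET

theorem xdb_thm : XDF Ke.B := by
  intro p e g e' g' N N' h h' u hp hp' hN hN' hU hU' hor v w hv hw h1 h2 h3 h4
  exfalso
  obtain ⟨c, r⟩ := v
  obtain ⟨⟨c', r'⟩, k'⟩ := w
  obtain ⟨q0, gq, gW, We, eM, MS⟩ := hp
  obtain ⟨_, gq', gW', We', eM', MS'⟩ := hp'
  have hu : ¬ u (c, r - 1) := hv.2
  have S0 : 0 < p.S := by linarith
  have colL : c' ≤ c - 1 → p.S * c' ≤ p.S * c - p.S := fun h => by nlinarith
  have colR : c + 1 ≤ c' → p.S * c + p.S ≤ p.S * c' := fun h => by nlinarith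
  have rowL : r' ≤ r - 1 → p.S * r' ≤ p.S * r - p.S := fun h => by nlinarith
  have rowL2 : r' ≤ r - 2 → p.S * r' ≤ p.S * r - 2 * p.S := fun h => by nlinarith
  have rowR : r + 1 ≤ r' → p.S * r + p.S ≤ p.S * r' := fun h => by nlinarith
  have hc : c' ≤ c - 1 ∨ c' = c ∨ c + 1 ≤ c' := by omega
  have hr : r' ≤ r - 2 ∨ r' = r - 1 ∨ r' = r ∨ r + 1 ≤ r' := by omega
  cases k' with
  | NW =>
    simp only [lo, hi, fx, nx2, jl, jh, fy] at h1 h2 h3 h4
    rcases hc with hc | hc | hc
    · have := colL hc
      linarith
    · subst hc
      by_cases hu' : u (c', r')
      · simp only [pv2, if_pos hu', fy] at h4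
        rcases hr with hr | hr | hr | hr
        · have := rowL2 hr
          linarith
        · exact hu (by rw [← hr]; exact hu')
        · subst hr
          linarith
        · have := rowR hr
          linarith
      · simp only [pv2, if_neg hu', fy] at h4
        rcases hr with hr | hr | hr | hr
        · have := rowL2 hr
          linarith
        · have := rowL (by omega)
          linarith
        · subst hr
          linarith
        · have := rowR hr
          linarith
    · have := colR hc
      linarith
  | SE =>
    simp only [lo, hi, fx, nx2, jl, jh, fy] at h1 h2 h3 h4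
    rcases hc with hc | hc | hc
    · have := colL hc
      linarith
    · subst hc
      by_cases hu' : u (c', r' - 1)
      · simp only [pv2, if_pos hu', fy] at h3
        rcases hr with hr | hr | hr | hr
        · have := rowL2 hr
          linarith
        · have := rowL (by omega)
          linarith
        · exact hu (by rw [← hr]; exact hu')
        · have := rowR hr
          linarith
      · simp only [pv2, if_neg hu', fy] at h3
        rcases hr with hr | hr | hr | hr
        · have := rowL2 hr
          linarith
        · have := rowL (by omega)
          linarith
        · subst hr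
          rcases hor with ⟨ha, hb⟩ | ⟨ha, hb⟩ <;> linarith
        · have := rowR hr
          linarith
    · have := colR hc
      linarith
  | T =>
    simp only [lo, hi, fx, nx2, jl, jh, fy, pv2] at h1 h2 h3 h4
    rcases hc with hc | hc | hc
    · have := colL hc
      linarith
    · subst hc
      rcases hr with hr | hr | hr | hr
      · have := rowL2 hr
        linarith
      · have := rowL (by omega)
        linarith
      · subst hr
        linarith
      · have := rowR hr
        linarith
    · have := colR hc
      linarith
  | B =>
    simp only [lo, hi, fx, nx2, jl, jh, fy, pv2] at h1 h2 h3 h4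
    rcases hc with hc | hc | hc
    · have := colL hc
      linarith
    · subst hc
      rcases hr with hr | hr | hr | hr
      · have := rowL2 hr
        linarith
      · have := rowL (by omega)
        linarith
      · subst hr
        rcases hor with ⟨ha, hb⟩ | ⟨ha, hb⟩ <;> linarith
      · have := rowR hr
        linarith
    · have := colR hc
      linarith
  | R =>
    simp only [lo, hi, fx, nx2] at h1 h2
    rcases hc with hc | hc | hc
    · have := colL hc
      linarith
    · subst hc
      linarith
    · have := colR hc
      linarith
  | L =>
    simp only [lo, hi, fx, nx2] at h1 h2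
    rcases hc with hc | hc | hc
    · have := colL hc
      linarith
    · subst hc
      linarith
    · have := colR hc
      linarith
  | J1 =>
    simp only [lo, hi, fx, nx2] at h1 h2
    rcases hc with hc | hc | hc
    · have := colL hc
      linarith
    · subst hc
      linarith
    · have := colR hc
      linarith
  | J2 =>
    simp only [lo, hi, fx, nx2] at h1 h2
    rcases hc with hc | hc | hc
    · have := colL hc
      linarith
    · subst hc
      linarith
    · have := colR hc
      linarith
  | J3 =>
    simp only [lo, hi, fx, nx2] at h1 h2
    rcases hc with hc | hc | hc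
    · have := colL hc
      linarith
    · subst hc
      linarith
    · have := colR hc
      linarith
  | J4 =>
    simp only [lo, hi, fx, nx2] at h1 h2
    rcases hc with hc | hc | hc
    · have := colL hc
      linarith
    · subst hc
      linarith
    · have := colR hc
      linarith

end Pool.NTC
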